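import Pool.Agent.U106.OC.Inv
import Pool.Agent.W765.Det3

/-!
# Orbit closures of dimension less than one contain no set invariant under an independent multiplication
-/

set_option autoImplicit false

namespace Pool.Agent.U106.OC

open Pool.Agent.Y943.Fu Set Filter Topology Pool.Agent.H705R2
open scoped ENNReal NNReal

/-- multiplicative independence -/
def Indep (a b : ℕ) : Prop := ∀ k l : ℕ, 0 < k → 0 < l → a ^ k ≠ b ^ l

theorem mulIndep {a b : ℕ} (ha : 2 ≤ a) (hb : 2 ≤ b) (hab : Indep a b) : MulIndep a b := by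
  intro m n h
  rcases Nat.eq_zero_or_pos m with hm | hm
  · subst hm
    rw [pow_zero] at h
    refine ⟨rfl, ?_⟩
    by_contra hn
    have := Nat.one_lt_pow hn (by omega : 1 < b)
    omega
  · rcases Nat.eq_zero_or_pos n with hn | hn
    · subst hn
      rw [pow_zero] at h
      have := Nat.one_lt_pow hm.ne' (by omega : 1 < a)
      omega
    · exact absurd h (hab m n hm hn)

/-- the closure of the orbit on the circle -/
def cl (a : ℕ) (w : Circ) : Set Circ := closure (range fun n : ℕ => a ^ n • w)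

theorem cl_inv {a : ℕ} {w y : Circ} (hy : y ∈ cl a w) (n : ℕ) : a ^ n • y ∈ cl a w := by
  have h : cl a w ⊆ (fun z : Circ => a ^ n • z) ⁻¹' cl a w := by
    refine closure_minimal ?_ (isClosed_closure.preimage (continuous_nsmul _))
    rintro _ ⟨k, rfl⟩
    refine subset_closure ⟨n + k, ?_⟩
    simp only
    rw [pow_add, mul_smul]
  exact h hy

/-- an orbit closure which contains an infinite closed set invariant under an independent
multiplication is everything -/
theorem cl_univ {a p : ℕ} (ha : 2 ≤ a) (hp : 2 ≤ p) (h : Indep p a) {w : Circ} {K : Set Circ}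
    (hK : IsClosed K) (hinf : K.Infinite) (hinv : ∀ x ∈ K, p • x ∈ K) (hsub : K ⊆ cl a w) :
    Dense (range fun n : ℕ => a ^ n • w) := by
  classical
  have h1 : Dense (cl a w) := by
    rw [dense_iff_inter_open]
    intro U hU hUne
    obtain ⟨L, hL⟩ := Pool.Agent.W765.Det.banach hp ha (mulIndep hp ha h) hK hinf hinv hU hUne
      (δ := 1 / 2) (by norm_num)
    have h2 := hL 0 (L + 1) (by omega)
    have h3 : ∃ i : ℕ, ¬ ∀ x ∈ K, a ^ i • x ∉ U := by
      by_contra hcon
      push Not at hcon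
      have h4 : (Finset.range (L + 1)).filter (fun i => ∀ x ∈ K, a ^ (0 + i) • x ∉ U) =
          Finset.range (L + 1) := by
        rw [Finset.filter_true_of_mem]
        intro i _
        rw [zero_add]
        exact hcon i
      rw [h4, Finset.card_range] at h2
      push_cast at h2
      have : (0 : ℝ) < L + 1 := by positivity
      linarith
    obtain ⟨i, hi⟩ := h3
    push Not at hi
    obtain ⟨x, hx, hxU⟩ := hi
    exact ⟨_, hxU, cl_inv (hsub hx) i⟩
  rw [Dense] at h1 ⊢
  intro x
  have h2 := h1 x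
  unfold cl at h2
  rwa [closure_closure] at h2

theorem cl_infinite {a : ℕ} (ha : 2 ≤ a) {x : ℝ} (hx : Irrational x) : (cl a (x : Circ)).Infinite := by
  refine Pool.Agent.W765.Sta.infinite_of_inv ha (fun y hy => ?_) (y := (x : Circ)) ?_
    (Pool.Agent.W765.Det.not_torsion_of_irrational hx)
  · have := cl_inv hy 1
    rwa [pow_one] at this
  · exact subset_closure ⟨0, by simp⟩

theorem coe_fract (t : ℝ) : ((Int.fract t : ℝ) : Circ) = (t : Circ) := by
  rw [← Int.self_sub_floor, AddCircle.coe_sub]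
  have h2 : (((⌊t⌋ : ℤ) : ℝ) : Circ) = 0 := by
    rw [AddCircle.coe_eq_zero_iff]
    exact ⟨⌊t⌋, by simp⟩
  rw [h2, sub_zero]

/-- from the interval to the circle -/
theorem coe_mem_cl {a : ℕ} {x y : ℝ} (hy : y ∈ orb a x) : (y : Circ) ∈ cl a (x : Circ) := by
  have h : orb a x ⊆ (fun t : ℝ => (t : Circ)) ⁻¹' cl a (x : Circ) := by
    refine closure_minimal ?_ (isClosed_closure.preimage (AddCircle.continuous_mk' 1))
    rintro _ ⟨n, rfl⟩
    refine subset_closure ⟨n, ?_⟩
    simp only
    rw [coe_fract, Pool.Agent.W765.Det.coe_pow_mul]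
  exact h hy

theorem dimH_of_dense {a : ℕ} {x : ℝ} (h : Dense (range fun n : ℕ => a ^ n • (x : Circ))) :
    dimH (orb a x) = 1 := by
  have h1 : orb a x = Icc 0 1 := Pool.Agent.W765.Det.closure_fract h
  have h3 : (interior (Icc (0 : ℝ) 1)).Nonempty := by
    rw [interior_Icc]; exact ⟨1 / 2, by norm_num, by norm_num⟩
  rw [h1, Real.dimH_of_nonempty_interior h3]
  simp

theorem smul_cl {a s : ℕ} {w y : Circ} (hy : y ∈ cl a w) : s • y ∈ cl a (s • w) := by
  have h : cl a w ⊆ (fun z : Circ => s • z) ⁻¹' cl a (s • w) := by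
    refine closure_minimal ?_ (isClosed_closure.preimage (continuous_nsmul _))
    rintro _ ⟨k, rfl⟩
    refine subset_closure ⟨k, ?_⟩
    simp only
    rw [smul_comm]
  exact h hy

theorem natAbs_smul {p : ℤ} {K : Set Circ} (h : ∀ x ∈ K, p • x ∈ K) :
    ∀ x ∈ K, (p.natAbs ^ 2) • x ∈ K := by
  intro x hx
  have h1 := h _ (h _ hx)
  rw [← mul_smul] at h1
  have h2 : p * p = ((p.natAbs ^ 2 : ℕ) : ℤ) := by
    push_cast
    rw [sq_abs, sq]
  rw [h2, natCast_zsmul] at h1
  exact h1

theorem indep_sq {p a : ℕ} (h : Indep p a) : Indep (p ^ 2) a := by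
  intro k l hk hl
  rw [← pow_mul]
  exact h _ _ (by omega) hl

theorem exists_den (r : ℚ) : ((r.den : ℕ) • ((r : ℝ) : Circ)) = 0 := by
  rw [← AddCircle.coe_nsmul, AddCircle.coe_eq_zero_iff]
  refine ⟨r.num, ?_⟩
  have h1 : (r.den : ℚ) * r = r.num := Rat.den_mul_eq_num r
  have h2 : ((r.den : ℕ) : ℝ) * (r : ℝ) = ((r.num : ℤ) : ℝ) := by
    exact_mod_cast congrArg (fun q : ℚ => (q : ℝ)) h1
  rw [nsmul_eq_mul, h2]
  simp

/-- if the orbit closure has dimension less than one, it contains no number `p x + r` -/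
theorem not_mem {a : ℕ} (ha : 2 ≤ a) {x : ℝ} (hx : Irrational x) (hd : dimH (orb a x) < 1)
    {p : ℤ} (hp : 2 ≤ p.natAbs) (hpa : Indep p.natAbs a) (r : ℚ) :
    Int.fract (p * x + r) ∉ orb a x := by
  intro hmem
  set s : ℕ := r.den with hs
  have hs1 : 1 ≤ s := r.den_pos
  have h1 := smul_cl (s := s) (coe_mem_cl hmem)
  rw [coe_fract] at h1
  have h2 : s • ((((p : ℝ) * x + r : ℝ)) : Circ) = p • (((s : ℝ) * x : ℝ) : Circ) := by
    rw [AddCircle.coe_add, smul_add, hs, exists_den r, add_zero, ← AddCircle.coe_nsmul,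
      ← AddCircle.coe_zsmul]
    congr 1
    rw [nsmul_eq_mul, zsmul_eq_mul]
    ring
  have h3 : s • (x : Circ) = (((s : ℝ) * x : ℝ) : Circ) := by
    rw [← AddCircle.coe_nsmul, nsmul_eq_mul]
  rw [h2, h3] at h1
  have hsx : Irrational ((s : ℝ) * x) := hx.natCast_mul (by omega)
  set w : Circ := (((s : ℝ) * x : ℝ) : Circ) with hw
  have hinv : ∀ y ∈ cl a w, p • y ∈ cl a w := by
    intro y hy
    have h : cl a w ⊆ (fun z : Circ => p • z) ⁻¹' cl a w := by
      refine closure_minimal ?_ (isClosed_closure.preimage (continuous_zsmul _))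
      rintro _ ⟨k, rfl⟩
      simp only [mem_preimage]
      rw [smul_comm]
      exact cl_inv h1 k
    exact h hy
  have hpp : 2 ≤ p.natAbs ^ 2 := by nlinarith
  have hdense := cl_univ ha hpp (indep_sq hpa) isClosed_closure (cl_infinite ha hsx)
    (natAbs_smul hinv) subset_rfl
  have h4 := dimH_of_dense hdense
  rw [dim_nat_mul ha x hs1] at h4
  exact hd.ne h4

/-- if the orbit closure has dimension less than one, it contains no rational translate of an infinite
closed set invariant under an independent multiplication -/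
theorem not_subset {a : ℕ} (ha : 2 ≤ a) {x : ℝ} (hd : dimH (orb a x) < 1)
    {p : ℤ} (hp : 2 ≤ p.natAbs) (hpa : Indep p.natAbs a) {Y : Set ℝ} (hY : IsClosed Y)
    (hY1 : Y ⊆ Icc 0 1) (hinf : Y.Infinite) (hinv : ∀ y ∈ Y, Int.fract (p * y) ∈ Y) (r : ℚ) :
    ∃ y ∈ Y, Int.fract (y + r) ∉ orb a x := by
  by_contra hcon
  push Not at hcon
  set s : ℕ := r.den with hs
  have hs1 : 1 ≤ s := r.den_pos
  set φ : ℝ → Circ := fun t => s • (t : Circ) with hφ
  have hφc : Continuous φ := (AddCircle.continuous_mk' 1).nsmul s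
  have hYc : IsCompact Y := isCompact_Icc.of_isClosed_subset hY hY1
  set K : Set Circ := φ '' Y with hK
  have hKc : IsClosed K := (hYc.image hφc).isClosed
  have h3 : s • (x : Circ) = (((s : ℝ) * x : ℝ) : Circ) := by
    rw [← AddCircle.coe_nsmul, nsmul_eq_mul]
  have hsub : K ⊆ cl a (((s : ℝ) * x : ℝ) : Circ) := by
    rintro _ ⟨y, hy, rfl⟩
    have h1 := smul_cl (s := s) (coe_mem_cl (hcon y hy))
    rw [coe_fract, AddCircle.coe_add, smul_add, hs, exists_den r, add_zero, ← hs, h3] at h1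
    exact h1
  have hKinv : ∀ y ∈ K, p • y ∈ K := by
    rintro _ ⟨y, hy, rfl⟩
    refine ⟨_, hinv y hy, ?_⟩
    simp only [hφ]
    rw [coe_fract, smul_comm, ← AddCircle.coe_zsmul, zsmul_eq_mul]
  have hKinf : K.Infinite := by
    intro hfin
    apply hinf
    refine Set.Finite.of_finite_fibers φ hfin ?_
    rintro _ ⟨y₀, hy₀, rfl⟩
    -- points with the same image
    have hsubf : Y ∩ φ ⁻¹' {φ y₀} ⊆ (fun k : ℤ => y₀ + k / s) '' (Icc (-(s : ℤ)) s) := by
      rintro y ⟨hy, hyy⟩
      simp only [mem_preimage, mem_singleton_iff, hφ] at hyy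
      have h5 : (((s : ℝ) * y - s * y₀ : ℝ) : Circ) = 0 := by
        rw [AddCircle.coe_sub, sub_eq_zero]
        rw [← AddCircle.coe_nsmul, ← AddCircle.coe_nsmul, nsmul_eq_mul, nsmul_eq_mul] at hyy
        exact hyy
      rw [AddCircle.coe_eq_zero_iff] at h5
      obtain ⟨k, hk⟩ := h5
      simp only [zsmul_eq_mul, mul_one] at hk
      have hs0 : (0 : ℝ) < s := by exact_mod_cast hs1
      have hy1 := hY1 hy
      have hy2 := hY1 hy₀
      refine ⟨k, ⟨?_, ?_⟩, ?_⟩
      · have h6 : (-(s : ℝ)) ≤ k := by rw [hk]; nlinarith [hy1.1, hy1.2, hy2.1, hy2.2]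
        exact_mod_cast h6
      · have h6 : (k : ℝ) ≤ s := by rw [hk]; nlinarith [hy1.1, hy1.2, hy2.1, hy2.2]
        exact_mod_cast h6
      · simp only
        rw [hk]
        field_simp
        ring
    exact (Finite.image _ (finite_Icc _ _)).subset hsubf
  have hpp : 2 ≤ p.natAbs ^ 2 := by nlinarith
  have hdense := cl_univ ha hpp (indep_sq hpa) hKc hKinf (natAbs_smul hKinv) hsub
  have h4 := dimH_of_dense hdense
  rw [dim_nat_mul ha x hs1] at h4
  exact hd.ne h4

end Pool.Agent.U106.OC
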