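import Pool.Agent.U106.OC.Inv

/-!
# Dilations: the orbits of most integer multiples are nearly dense
-/

set_option autoImplicit false

namespace Pool.Agent.U106.OC

open Pool.Agent.Y943.Fu Pool.Agent.H332R2.Lit Set Filter Topology
open scoped ENNReal NNReal

/-- every point of the unit interval is at a distance less than `ε` from the set `S` -/
def EDense (ε : ℝ) (S : Set ℝ) : Prop := ∀ y ∈ Icc (0 : ℝ) 1, ∃ s ∈ S, |s - y| < ε

theorem edense_of_near {b : ℕ} {x ε : ℝ} (hε : 0 < ε)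
    (h : ∀ y : ℝ, ∃ n : ℕ, ∃ z : ℤ, |(b : ℝ) ^ n * x - y - z| < min (ε / 2) (1 / 2)) :
    EDense ε (orb b x) := by
  intro y hy
  set η := min (ε / 2) (1 / 2) with hη
  have hη0 : 0 < η := lt_min (by positivity) (by norm_num)
  have hη1 : η ≤ ε / 2 := min_le_left _ _
  have hη2 : η ≤ 1 / 2 := min_le_right _ _
  -- a point in the middle
  obtain ⟨y', hy1, hy2, hy3⟩ : ∃ y' : ℝ, η ≤ y' ∧ y' ≤ 1 - η ∧ |y' - y| ≤ η := by
    rcases le_total y η with h1 | h1
    · exact ⟨η, le_rfl, by linarith, by rw [abs_le]; constructor <;> linarith [hy.1]⟩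
    · rcases le_total y (1 - η) with h2 | h2
      · exact ⟨y, h1, h2, by simp [hη0.le]⟩
      · exact ⟨1 - η, by linarith, le_rfl, by rw [abs_le]; constructor <;> linarith [hy.2]⟩
  obtain ⟨n, z, hz⟩ := h y'
  refine ⟨Int.fract ((b : ℝ) ^ n * x), subset_closure ⟨n, rfl⟩, ?_⟩
  rw [abs_lt] at hz
  have hfr : Int.fract ((b : ℝ) ^ n * x) = (b : ℝ) ^ n * x - z := by
    rw [Int.fract_eq_iff]
    exact ⟨by linarith, by linarith, z, by ring⟩
  rw [hfr]
  rw [abs_le] at hy3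
  rw [abs_lt]
  constructor <;> linarith

/-- the multiples `m x` such that the orbit is not nearly dense have density zero -/
theorem dilations_one {b : ℕ} (hb : 2 ≤ b) {x : ℝ} (hx : Irrational x) {ε δ : ℝ} (hε : 0 < ε)
    (hδ : 0 < δ) : ∃ M₀ : ℕ, ∀ M : ℕ, M₀ ≤ M → ∀ S : Finset ℕ, S ⊆ Finset.range M →
      (∀ m ∈ S, ¬ EDense ε (orb b (m * x))) → (S.card : ℝ) ≤ δ * M := by
  obtain ⟨K, η, hη0, hη1, hds⟩ := dense_of_sums (min (ε / 2) (1 / 2))
    (lt_min (by positivity) (by norm_num))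
  obtain ⟨N, hN⟩ := exists_nat_gt (2 * (K + 1) / (η ^ 2 * δ))
  have hNpos : (0 : ℝ) < N := lt_trans (by positivity) hN
  have hN1 : 1 ≤ N := by exact_mod_cast hNpos
  have hne : ∀ h : ℕ, 1 ≤ h → ∀ i j : Fin N, i ≠ j → ∀ z : ℤ,
      (h : ℝ) * ((b : ℝ) ^ (i : ℕ) * x - (b : ℝ) ^ (j : ℕ) * x) ≠ z := by
    intro h hh i j hij z hz
    have hinj : ((b : ℤ) ^ (i : ℕ) - (b : ℤ) ^ (j : ℕ)) ≠ 0 := by
      intro h0
      have h1 : (b : ℤ) ^ (i : ℕ) = (b : ℤ) ^ (j : ℕ) := by linarith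
      have h2 : b ^ (i : ℕ) = b ^ (j : ℕ) := by exact_mod_cast h1
      exact hij (Fin.ext (Nat.pow_right_injective hb h2))
    have hc : ((h : ℤ) * ((b : ℤ) ^ (i : ℕ) - (b : ℤ) ^ (j : ℕ))) ≠ 0 :=
      mul_ne_zero (by omega) hinj
    have hirr := hx.intCast_mul hc
    apply hirr.ne_int z
    push_cast
    rw [← hz]
    ring
  have hC : ∀ h : ℕ, ∃ C : ℝ, 0 ≤ C ∧ (1 ≤ h → ∀ M : ℕ,
      ∑ l ∈ Finset.range M, ‖∑ i : Fin N, e ((h : ℝ) * (l * ((b : ℝ) ^ (i : ℕ) * x)))‖ ^ 2 ≤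
        N * M + C) := by
    intro h
    by_cases hh : 1 ≤ h
    · obtain ⟨C, hC0, hC⟩ := second_moment (n := N) (fun i => (b : ℝ) ^ (i : ℕ) * x) (h : ℝ)
        (hne h hh)
      refine ⟨C, hC0, fun _ M => ?_⟩
      have := hC M 0
      rw [zero_add, ← Finset.range_eq_Ico] at this
      exact this
    · exact ⟨0, le_rfl, fun h1 => absurd h1 hh⟩
  choose C hC0 hC using hC
  set Ct : ℝ := ∑ h ∈ Finset.Icc 1 K, C h with hCt
  have hCt0 : 0 ≤ Ct := Finset.sum_nonneg fun h _ => hC0 h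
  obtain ⟨M₀, hM₀⟩ := exists_nat_gt (2 * Ct / (η ^ 2 * N ^ 2 * δ))
  refine ⟨M₀, fun M hM S hSM hS => ?_⟩
  -- each bad `m` has a large sum
  have hbad : ∀ m ∈ S, (η * N) ^ 2 ≤ ∑ h ∈ Finset.Icc 1 K,
      ‖∑ i : Fin N, e ((h : ℝ) * (m * ((b : ℝ) ^ (i : ℕ) * x)))‖ ^ 2 := by
    intro m hm
    by_contra hcon
    push Not at hcon
    apply hS m hm
    apply edense_of_near hε
    intro y
    have hsum : ∀ h : ℕ, 1 ≤ h → h ≤ K →
        ‖∑ l ∈ Finset.range N, e ((h : ℝ) * ((b : ℝ) ^ l * (m * x)))‖ ≤ η * N := by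
      intro h h1 h2
      have h3 : ‖∑ i : Fin N, e ((h : ℝ) * (m * ((b : ℝ) ^ (i : ℕ) * x)))‖ ^ 2 ≤ (η * N) ^ 2 := by
        refine le_trans ?_ hcon.le
        exact Finset.single_le_sum (f := fun h : ℕ =>
          ‖∑ i : Fin N, e ((h : ℝ) * (m * ((b : ℝ) ^ (i : ℕ) * x)))‖ ^ 2)
          (fun _ _ => sq_nonneg _) (Finset.mem_Icc.2 ⟨h1, h2⟩)
      have h4 := abs_le_of_sq_le_sq' h3 (by positivity)
      rw [Finset.sum_range]
      refine le_trans (le_of_eq ?_) h4.2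
      congr 1
      refine Finset.sum_congr rfl fun i _ => ?_
      congr 1
      ring
    obtain ⟨l, -, z, hz⟩ := hds N (fun l => (b : ℝ) ^ l * (m * x)) hN1 hsum y
    exact ⟨l, z, hz⟩
  have h1 : (S.card : ℝ) * (η * N) ^ 2 ≤ K * (N * M) + Ct := by
    calc (S.card : ℝ) * (η * N) ^ 2 = ∑ _m ∈ S, (η * N) ^ 2 := by
          rw [Finset.sum_const, nsmul_eq_mul]
      _ ≤ ∑ m ∈ S, ∑ h ∈ Finset.Icc 1 K,
          ‖∑ i : Fin N, e ((h : ℝ) * (m * ((b : ℝ) ^ (i : ℕ) * x)))‖ ^ 2 :=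
          Finset.sum_le_sum hbad
      _ ≤ ∑ m ∈ Finset.range M, ∑ h ∈ Finset.Icc 1 K,
          ‖∑ i : Fin N, e ((h : ℝ) * (m * ((b : ℝ) ^ (i : ℕ) * x)))‖ ^ 2 :=
          Finset.sum_le_sum_of_subset_of_nonneg hSM fun _ _ _ =>
            Finset.sum_nonneg fun _ _ => sq_nonneg _
      _ = ∑ h ∈ Finset.Icc 1 K, ∑ m ∈ Finset.range M,
          ‖∑ i : Fin N, e ((h : ℝ) * (m * ((b : ℝ) ^ (i : ℕ) * x)))‖ ^ 2 := Finset.sum_comm
      _ ≤ ∑ h ∈ Finset.Icc 1 K, ((N : ℝ) * M + C h) := by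
          refine Finset.sum_le_sum fun h hh => ?_
          exact hC h (Finset.mem_Icc.1 hh).1 M
      _ = K * (N * M) + Ct := by
          rw [Finset.sum_add_distrib, Finset.sum_const, Nat.card_Icc, nsmul_eq_mul, hCt]
          simp
  have hK0 : (0 : ℝ) ≤ K := Nat.cast_nonneg K
  have hM0 : (0 : ℝ) ≤ M := Nat.cast_nonneg M
  have h2 : (K : ℝ) * (N * M) ≤ δ / 2 * M * (η * N) ^ 2 := by
    have h3 : 2 * ((K : ℝ) + 1) < N * (η ^ 2 * δ) := by
      rwa [div_lt_iff₀ (by positivity)] at hN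
    have h4 : (K : ℝ) ≤ δ / 2 * η ^ 2 * N := by nlinarith
    calc (K : ℝ) * (N * M) ≤ (δ / 2 * η ^ 2 * N) * (N * M) := by gcongr
      _ = _ := by ring
  have h5 : Ct ≤ δ / 2 * M * (η * N) ^ 2 := by
    have h3 : 2 * Ct / (η ^ 2 * N ^ 2 * δ) ≤ M := hM₀.le.trans (by exact_mod_cast hM)
    rw [div_le_iff₀ (by positivity)] at h3
    nlinarith
  have h6 : (S.card : ℝ) * (η * N) ^ 2 ≤ (δ * M) * (η * N) ^ 2 := by nlinarith
  exact le_of_mul_le_mul_right h6 (by positivity)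

open Classical in
/-- simultaneous version for finitely many bases -/
theorem dilations (B : Finset ℕ) (hB : ∀ b ∈ B, 2 ≤ b) {x : ℝ} (hx : Irrational x) {ε δ : ℝ}
    (hε : 0 < ε) (hδ : 0 < δ) : ∃ M₀ : ℕ, ∀ M : ℕ, M₀ ≤ M →
      (((Finset.range M).filter fun m : ℕ => ∃ b ∈ B, ¬ EDense ε (orb b ((m : ℝ) * x))).card : ℝ) ≤
        δ * M := by
  have h1 : ∀ b : ℕ, ∃ M₀ : ℕ, b ∈ B → ∀ M : ℕ, M₀ ≤ M → ∀ S : Finset ℕ, S ⊆ Finset.range M →
      (∀ m ∈ S, ¬ EDense ε (orb b (m * x))) → (S.card : ℝ) ≤ δ / (B.card + 1) * M := by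
    intro b
    by_cases hb : b ∈ B
    · obtain ⟨M₀, h⟩ := dilations_one (hB b hb) hx hε (δ := δ / (B.card + 1)) (by positivity)
      exact ⟨M₀, fun _ => h⟩
    · exact ⟨0, fun h => absurd h hb⟩
  choose f hf using h1
  refine ⟨B.sup f, fun M hM => ?_⟩
  have h2 : (Finset.range M).filter (fun m : ℕ => ∃ b ∈ B, ¬ EDense ε (orb b ((m : ℝ) * x))) ⊆
      B.biUnion fun b => (Finset.range M).filter fun m : ℕ => ¬ EDense ε (orb b ((m : ℝ) * x)) := by
    intro m hm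
    rw [Finset.mem_filter] at hm
    obtain ⟨hm1, b, hb, hm2⟩ := hm
    rw [Finset.mem_biUnion]
    exact ⟨b, hb, Finset.mem_filter.2 ⟨hm1, hm2⟩⟩
  calc (((Finset.range M).filter fun m : ℕ => ∃ b ∈ B, ¬ EDense ε (orb b ((m : ℝ) * x))).card : ℝ)
      ≤ ((B.biUnion fun b => (Finset.range M).filter fun m : ℕ =>
          ¬ EDense ε (orb b ((m : ℝ) * x))).card : ℝ) := by exact_mod_cast Finset.card_le_card h2
    _ ≤ ((∑ b ∈ B, ((Finset.range M).filter fun m : ℕ => ¬ EDense ε (orb b ((m : ℝ) * x))).card : ℕ) : ℝ) := by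
        exact_mod_cast Finset.card_biUnion_le
    _ ≤ ∑ _b ∈ B, δ / (B.card + 1) * M := by
        push_cast
        refine Finset.sum_le_sum fun b hb => ?_
        refine hf b hb M ((Finset.le_sup (f := f) hb).trans hM) _ (Finset.filter_subset _ _) ?_
        intro m hm
        exact (Finset.mem_filter.1 hm).2
    _ = B.card / (B.card + 1) * (δ * M) := by
        rw [Finset.sum_const, nsmul_eq_mul]
        ring
    _ ≤ 1 * (δ * M) := by
        gcongr
        rw [div_le_one (by positivity)]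
        linarith
    _ = δ * M := one_mul _

/-- multiples in a given interval -/
theorem located {x : ℝ} (hx : Irrational x) {u v : ℝ} (hu : 0 ≤ u) (huv : u < v) (hv : v ≤ 1) :
    ∃ N : ℕ, 1 ≤ N ∧ ∀ k : ℕ, ∃ m : ℕ, k ≤ m ∧ m < k + N ∧ Int.fract ((m : ℝ) * x) ∈ Ioo u v := by
  set ε : ℝ := (v - u) / 2 with hε
  have hε0 : 0 < ε := by rw [hε]; linarith
  obtain ⟨K, η, hη0, hη1, hds⟩ := dense_of_sums ε hε0
  -- geometric sums
  have hC : ∀ h : ℕ, ∃ C : ℝ, 0 ≤ C ∧ (1 ≤ h → ∀ k N : ℕ,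
      ‖∑ l ∈ Finset.range N, e ((h : ℝ) * ((k + l : ℕ) * x))‖ ≤ C) := by
    intro h
    by_cases hh : 1 ≤ h
    · have hpos : 0 < |(h : ℝ) * x - round ((h : ℝ) * x)| := by
        rw [abs_pos, sub_ne_zero]
        have hirr := hx.natCast_mul (by omega : h ≠ 0)
        exact fun h0 => hirr.ne_int _ h0
      refine ⟨1 / (2 * |(h : ℝ) * x - round ((h : ℝ) * x)|), by positivity, fun _ k N => ?_⟩
      have h1 := norm_geom_Ico ((h : ℝ) * x) _ hpos le_rfl k N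
      refine le_trans (le_of_eq ?_) h1
      rw [Finset.sum_Ico_eq_sum_range]
      congr 1
      have : k + N - k = N := by omega
      rw [this]
      refine Finset.sum_congr rfl fun l _ => ?_
      congr 1
      push_cast
      ring
    · exact ⟨0, le_rfl, fun h1 => absurd h1 hh⟩
  choose C hC0 hC using hC
  obtain ⟨N, hN⟩ := exists_nat_gt ((∑ h ∈ Finset.Icc 1 K, C h + 1) / η)
  have hsum0 : 0 ≤ ∑ h ∈ Finset.Icc 1 K, C h := Finset.sum_nonneg fun h _ => hC0 h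
  have hNpos : (0 : ℝ) < N := lt_trans (by positivity) hN
  have hN1 : 1 ≤ N := by exact_mod_cast hNpos
  refine ⟨N, hN1, fun k => ?_⟩
  have hsum : ∀ h : ℕ, 1 ≤ h → h ≤ K →
      ‖∑ l ∈ Finset.range N, e ((h : ℝ) * (((k + l : ℕ) : ℝ) * x))‖ ≤ η * N := by
    intro h h1 h2
    refine (hC h h1 k N).trans ?_
    have h3 : C h ≤ ∑ h ∈ Finset.Icc 1 K, C h :=
      Finset.single_le_sum (f := C) (fun _ _ => hC0 _) (Finset.mem_Icc.2 ⟨h1, h2⟩)
    rw [div_lt_iff₀ hη0] at hN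
    linarith
  obtain ⟨l, hl, z, hz⟩ := hds N (fun l => ((k + l : ℕ) : ℝ) * x) hN1 hsum ((u + v) / 2)
  refine ⟨k + l, by omega, by omega, ?_⟩
  rw [abs_lt] at hz
  have hz1 := hz.1
  have hz2 := hz.2
  have hfr : Int.fract (((k + l : ℕ) : ℝ) * x) = ((k + l : ℕ) : ℝ) * x - z := by
    rw [Int.fract_eq_iff]
    exact ⟨by linarith, by linarith, z, by ring⟩
  rw [hfr]
  constructor <;> linarith

/-- for an irrational `x`, the multiples `m x` (modulo one) which are in a given interval and have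
nearly dense orbits for all bases in a finite set -/
theorem exists_located (B : Finset ℕ) (hB : ∀ b ∈ B, 2 ≤ b) {x : ℝ} (hx : Irrational x) {ε : ℝ}
    (hε : 0 < ε) {u v : ℝ} (hu : 0 ≤ u) (huv : u < v) (hv : v ≤ 1) :
    ∃ m : ℕ, 1 ≤ m ∧ Int.fract ((m : ℝ) * x) ∈ Ioo u v ∧ ∀ b ∈ B, EDense ε (orb b (m * x)) := by
  classical
  obtain ⟨N, hN1, hloc⟩ := located hx hu huv hv
  have hNr : (1 : ℝ) ≤ N := by exact_mod_cast hN1
  obtain ⟨M₀, hM₀⟩ := dilations B hB hx hε (δ := 1 / (4 * N)) (by positivity)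
  set T : ℕ := max M₀ 1 with hT
  have hT1 : 1 ≤ T := le_max_right _ _
  have hTr : (1 : ℝ) ≤ T := by exact_mod_cast hT1
  by_contra hcon
  push Not at hcon
  choose f hf1 hf2 hf3 using hloc
  -- located multiples `f (1 + N t)`, `t < T`, are bad
  set M : ℕ := N * (T + 1) with hM
  have hMM : M₀ ≤ M := by
    have h1 : M₀ ≤ T := le_max_left _ _
    have h2 : T + 1 ≤ N * (T + 1) := Nat.le_mul_of_pos_left _ (by omega)
    omega
  have hbad := hM₀ M hMM
  have hinj : Set.InjOn (fun t : ℕ => f (1 + N * t)) (Finset.range T) := by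
    intro s _ t _ hst
    simp only at hst
    have h1 := hf1 (1 + N * s)
    have h2 := hf2 (1 + N * s)
    have h3 := hf1 (1 + N * t)
    have h4 := hf2 (1 + N * t)
    rcases lt_trichotomy s t with hlt | heq | hgt
    · have : N * (s + 1) ≤ N * t := Nat.mul_le_mul_left N hlt
      rw [mul_add, mul_one] at this
      omega
    · exact heq
    · have : N * (t + 1) ≤ N * s := Nat.mul_le_mul_left N hgt
      rw [mul_add, mul_one] at this
      omega
  have hsub : (Finset.range T).image (fun t : ℕ => f (1 + N * t)) ⊆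
      (Finset.range M).filter fun m : ℕ => ∃ b ∈ B, ¬ EDense ε (orb b ((m : ℝ) * x)) := by
    intro m hm
    rw [Finset.mem_image] at hm
    obtain ⟨t, ht, rfl⟩ := hm
    rw [Finset.mem_range] at ht
    rw [Finset.mem_filter, Finset.mem_range]
    refine ⟨?_, hcon _ (by have := hf1 (1 + N * t); omega) (hf3 _)⟩
    have h1 := hf2 (1 + N * t)
    have h2 : N * (t + 1) ≤ N * T := Nat.mul_le_mul_left N ht
    rw [mul_add, mul_one] at h2
    rw [hM, mul_add, mul_one]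
    omega
  have hcard : (T : ℝ) ≤ 1 / (4 * N) * M := by
    refine le_trans ?_ hbad
    have h1 := Finset.card_le_card hsub
    rw [Finset.card_image_of_injOn hinj, Finset.card_range] at h1
    exact_mod_cast h1
  rw [hM] at hcard
  push_cast at hcard
  have h3 : 1 / (4 * (N : ℝ)) * (N * (T + 1)) = (T + 1) / 4 := by
    field_simp
  rw [h3] at hcard
  linarith

end Pool.Agent.U106.OC
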