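import Pool.Agent.U106.OC.Words

/-!
# Invariance and subadditivity of the dimension of orbit closures
-/

set_option autoImplicit false

namespace Pool.Agent.U106.OC

open Pool.Agent.Y943.Fu Set Filter Topology MeasureTheory Measure
open scoped ENNReal NNReal

theorem dim_add {b : ℕ} (hb : 2 ≤ b) (x y : ℝ) :
    dimH (orb b (x + y)) ≤ dimH (orb b x) + dimH (orb b y) :=
  dimH_le_add_of_wds (K := 4) hb (wds_add hb x y)

theorem dim_nat_mul {b : ℕ} (hb : 2 ≤ b) (x : ℝ) {m : ℕ} (hm : 1 ≤ m) :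
    dimH (orb b (m * x)) = dimH (orb b x) :=
  le_antisymm (dimH_le_of_wds_le hb (wds_nat_mul hb x hm)) (dimH_le_of_wds_le hb (wds_of_nat_mul hb x hm))

theorem dim_neg {b : ℕ} (hb : 2 ≤ b) (x : ℝ) : dimH (orb b (-x)) = dimH (orb b x) := by
  refine le_antisymm (dimH_le_of_wds_le hb (wds_neg hb x)) ?_
  have := dimH_le_of_wds_le hb (wds_neg hb (-x))
  rwa [neg_neg] at this

theorem dim_int_mul {b : ℕ} (hb : 2 ≤ b) (x : ℝ) {m : ℤ} (hm : m ≠ 0) :
    dimH (orb b (m * x)) = dimH (orb b x) := by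
  obtain ⟨k, rfl | rfl⟩ := Int.eq_nat_or_neg m
  · have hk : 1 ≤ k := by
      rcases Nat.eq_zero_or_pos k with h | h
      · subst h; simp at hm
      · exact h
    exact_mod_cast dim_nat_mul hb x hk
  · have hk : 1 ≤ k := by
      rcases Nat.eq_zero_or_pos k with h | h
      · subst h; simp at hm
      · exact h
    have h1 : (((-(k : ℤ) : ℤ)) : ℝ) * x = -((k : ℝ) * x) := by
      push_cast
      ring
    rw [h1, dim_neg hb, dim_nat_mul hb x hk]

theorem dim_int {b : ℕ} (k : ℤ) : dimH (orb b (k : ℝ)) = 0 := by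
  have h : orb b (k : ℝ) ⊆ {0} := by
    refine closure_minimal ?_ isClosed_singleton
    rintro _ ⟨n, rfl⟩
    have : (b : ℝ) ^ n * k = (((b : ℤ) ^ n * k : ℤ) : ℝ) := by push_cast; ring
    simp only [mem_singleton_iff]
    rw [this, Int.fract_intCast]
  refine le_antisymm ((dimH_mono h).trans ?_) zero_le
  rw [dimH_singleton]

theorem dim_rat {b : ℕ} (hb : 2 ≤ b) (r : ℚ) : dimH (orb b (r : ℝ)) = 0 := by
  have hd : 1 ≤ r.den := r.den_pos
  rw [← dim_nat_mul hb (r : ℝ) hd]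
  have h : ((r.den : ℕ) : ℝ) * (r : ℝ) = ((r.num : ℤ) : ℝ) := by
    have h1 : (r.den : ℚ) * r = r.num := Rat.den_mul_eq_num r
    exact_mod_cast congrArg (fun q : ℚ => (q : ℝ)) h1
  rw [h]
  exact dim_int _

theorem dim_add_rat {b : ℕ} (hb : 2 ≤ b) (x : ℝ) (r : ℚ) :
    dimH (orb b (x + r)) = dimH (orb b x) := by
  refine le_antisymm ?_ ?_
  · have := dim_add hb x (r : ℝ)
    rwa [dim_rat hb, add_zero] at this
  · have h1 := dim_add hb (x + r) ((-r : ℚ) : ℝ)
    rw [dim_rat hb, add_zero] at h1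
    have h2 : x + (r : ℝ) + ((-r : ℚ) : ℝ) = x := by push_cast; ring
    rwa [h2] at h1

/-- invariance under rational affine relations -/
theorem dim_affine {b : ℕ} (hb : 2 ≤ b) {x y : ℝ} {m n : ℤ} (hm : m ≠ 0) (hn : n ≠ 0) {r : ℚ}
    (h : (n : ℝ) * y = m * x + r) : dimH (orb b y) = dimH (orb b x) := by
  rw [← dim_int_mul hb y hn, h, dim_add_rat hb, dim_int_mul hb x hm]

theorem dim_rat_mul {b : ℕ} (hb : 2 ≤ b) (x : ℝ) {q : ℚ} (hq : q ≠ 0) :
    dimH (orb b (q * x)) = dimH (orb b x) := by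
  refine dim_affine hb (m := q.num) (n := q.den) (r := 0) (by simpa using hq)
    (by exact_mod_cast q.den_pos.ne') ?_
  have h1 : (q.den : ℚ) * q = q.num := Rat.den_mul_eq_num q
  have h2 : ((q.den : ℕ) : ℝ) * (q : ℝ) = ((q.num : ℤ) : ℝ) := by
    exact_mod_cast congrArg (fun q : ℚ => (q : ℝ)) h1
  push_cast
  rw [← mul_assoc, h2]
  ring

/-- powers of the base -/
theorem dim_pow {b : ℕ} (hb : 2 ≤ b) {k : ℕ} (hk : 1 ≤ k) (x : ℝ) :
    dimH (orb (b ^ k) x) = dimH (orb b x) := by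
  have hbk : 2 ≤ b ^ k := hb.trans (Nat.le_self_pow (by omega) b)
  refine le_antisymm (dimH_mono (closure_mono ?_)) ?_
  · rintro _ ⟨n, rfl⟩
    refine ⟨k * n, ?_⟩
    simp only
    push_cast
    rw [pow_mul]
  · have hsub : orb b x ⊆ ⋃ i : Fin k, orb (b ^ k) ((b : ℝ) ^ (i : ℕ) * x) := by
      refine closure_minimal ?_ (isClosed_iUnion_of_finite fun i => isClosed_closure)
      rintro _ ⟨n, rfl⟩
      refine mem_iUnion.2 ⟨⟨n % k, Nat.mod_lt _ (by omega)⟩, subset_closure ⟨n / k, ?_⟩⟩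
      simp only
      congr 1
      push_cast
      rw [← mul_assoc, ← pow_mul, ← pow_add, Nat.div_add_mod]
    refine (dimH_mono hsub).trans ?_
    rw [dimH_iUnion]
    refine iSup_le fun i => ?_
    have h1 : (b : ℝ) ^ (i : ℕ) = ((b ^ (i : ℕ) : ℕ) : ℝ) := by push_cast; rfl
    rw [h1, dim_nat_mul hbk x (Nat.one_le_pow _ _ (by omega))]

end Pool.Agent.U106.OC
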