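import Pool.Agent.Y943.Fu.Dim2

/-!
# Number of words and dimension of orbit closures

Few words give a small dimension; the number of words of `x + y`, of multiples and of quotients.
-/

set_option autoImplicit false

namespace Pool.Agent.U106.OC

open Pool.Agent.Y943.Fu Set Filter Topology MeasureTheory Measure
open scoped ENNReal NNReal

theorem orb_subset_cells {b : ℕ} (hb : 2 ≤ b) (x : ℝ) (L : ℕ) :
    orb b x ⊆ ⋃ w : ↥(wds_finite hb x L).1.toFinset,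
      Icc (((w : ℤ) : ℝ) / (b : ℝ) ^ L) ((((w : ℤ) : ℝ) + 1) / (b : ℝ) ^ L) := by
  refine closure_minimal ?_ (isClosed_iUnion_of_finite fun w => isClosed_Icc)
  rintro _ ⟨n, rfl⟩
  have hbl : (0 : ℝ) < (b : ℝ) ^ L := by positivity
  have hmem : ⌊(b : ℝ) ^ L * Int.fract ((b : ℝ) ^ n * x)⌋ ∈ (wds_finite hb x L).1.toFinset := by
    rw [Set.Finite.mem_toFinset]
    exact ⟨n, rfl⟩
  have h1 := Int.floor_le ((b : ℝ) ^ L * Int.fract ((b : ℝ) ^ n * x))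
  have h2 := (Int.lt_floor_add_one ((b : ℝ) ^ L * Int.fract ((b : ℝ) ^ n * x))).le
  generalize hk : ⌊(b : ℝ) ^ L * Int.fract ((b : ℝ) ^ n * x)⌋ = k at hmem h1 h2
  refine mem_iUnion.2 ⟨⟨k, hmem⟩, ?_⟩
  constructor
  · change (k : ℝ) / (b : ℝ) ^ L ≤ Int.fract ((b : ℝ) ^ n * x)
    rw [div_le_iff₀ hbl]
    linarith
  · change Int.fract ((b : ℝ) ^ n * x) ≤ ((k : ℝ) + 1) / (b : ℝ) ^ L
    rw [le_div_iff₀ hbl]
    linarith

/-- few words give a small dimension -/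
theorem dimH_le_of_wds {b : ℕ} (hb : 2 ≤ b) (x : ℝ) {s : ℝ≥0} {C : ℝ}
    (h : ∀ L : ℕ, ((wds b x L).ncard : ℝ) ≤ C * (b : ℝ) ^ ((s : ℝ) * L)) :
    dimH (orb b x) ≤ s := by
  have hb1 : (1 : ℝ) < b := by exact_mod_cast (by omega : 1 < b)
  have hb0 : (0 : ℝ) < b := by linarith
  refine dimH_le_of_hausdorffMeasure_ne_top ?_
  have key := hausdorffMeasure_le_liminf_sum (X := ℝ) (ι := fun L : ℕ =>
      ↥(wds_finite hb x L).1.toFinset) (s : ℝ) (orb b x) (l := atTop)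
      (fun L => ENNReal.ofReal (1 / (b : ℝ) ^ L)) ?_
      (fun L w => Icc (((w : ℤ) : ℝ) / (b : ℝ) ^ L) ((((w : ℤ) : ℝ) + 1) / (b : ℝ) ^ L)) ?_ ?_
  · refine ne_top_of_le_ne_top ?_ key
    refine ne_top_of_le_ne_top (b := ENNReal.ofReal C) ENNReal.ofReal_ne_top ?_
    refine liminf_le_of_frequently_le' (Eventually.frequently (Eventually.of_forall fun L => ?_))
    have hbl : (0 : ℝ) < (b : ℝ) ^ L := by positivity
    have hd : ∀ w : ↥(wds_finite hb x L).1.toFinset,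
        Metric.ediam (Icc (((w : ℤ) : ℝ) / (b : ℝ) ^ L) ((((w : ℤ) : ℝ) + 1) / (b : ℝ) ^ L)) ^ (s : ℝ) =
          ENNReal.ofReal ((1 / (b : ℝ) ^ L) ^ (s : ℝ)) := by
      intro w
      rw [Real.ediam_Icc]
      have e1 : (((w : ℤ) : ℝ) + 1) / (b : ℝ) ^ L - ((w : ℤ) : ℝ) / (b : ℝ) ^ L = 1 / (b : ℝ) ^ L := by
        ring
      rw [e1]
      exact ENNReal.ofReal_rpow_of_nonneg (by positivity) s.2
    rw [Finset.sum_congr rfl fun w _ => hd w, Finset.sum_const, nsmul_eq_mul]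
    have hcard : ((Finset.univ : Finset ↥(wds_finite hb x L).1.toFinset).card : ℝ≥0∞) =
        ENNReal.ofReal ((wds b x L).ncard : ℝ) := by
      rw [Finset.card_univ, Fintype.card_coe, ← Set.ncard_eq_toFinset_card _ (wds_finite hb x L).1,
        ENNReal.ofReal_natCast]
    rw [hcard, ← ENNReal.ofReal_mul (by positivity)]
    apply ENNReal.ofReal_le_ofReal
    have h1 : (b : ℝ) ^ ((s : ℝ) * L) * (1 / (b : ℝ) ^ L) ^ (s : ℝ) = 1 := by
      rw [← Real.rpow_natCast (b : ℝ) L, one_div, ← Real.rpow_neg hb0.le, ← Real.rpow_mul hb0.le,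
        ← Real.rpow_add hb0]
      rw [show (s : ℝ) * L + -(L : ℝ) * s = 0 by ring, Real.rpow_zero]
    calc ((wds b x L).ncard : ℝ) * (1 / (b : ℝ) ^ L) ^ (s : ℝ)
        ≤ (C * (b : ℝ) ^ ((s : ℝ) * L)) * (1 / (b : ℝ) ^ L) ^ (s : ℝ) := by
          gcongr
          exact h L
      _ = C := by rw [mul_assoc, h1, mul_one]
  · rw [show (0 : ℝ≥0∞) = ENNReal.ofReal 0 by simp]
    refine ENNReal.tendsto_ofReal ?_
    have h2 : Tendsto (fun L : ℕ => ((1 : ℝ) / b) ^ L) atTop (𝓝 0) :=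
      tendsto_pow_atTop_nhds_zero_of_lt_one (by positivity) (by rw [div_lt_one hb0]; exact hb1)
    simpa using h2
  · refine Eventually.of_forall fun L w => ?_
    rw [Real.ediam_Icc]
    apply ENNReal.ofReal_le_ofReal
    apply le_of_eq
    ring
  · exact Eventually.of_forall fun L => orb_subset_cells hb x L

/-- the dimension of orbit closures is at most one -/
theorem dimH_orb_le_one (b : ℕ) (x : ℝ) : dimH (orb b x) ≤ 1 := by
  refine (dimH_mono (subset_univ _)).trans ?_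
  rw [Real.dimH_univ]

theorem dimH_orb_ne_top (b : ℕ) (x : ℝ) : dimH (orb b x) ≠ ⊤ :=
  ne_top_of_le_ne_top ENNReal.one_ne_top (dimH_orb_le_one b x)

/-- comparison of numbers of words gives comparison of dimensions -/
theorem dimH_le_of_wds_le {b : ℕ} (hb : 2 ≤ b) {x y : ℝ} {K : ℕ}
    (h : ∀ L : ℕ, (wds b y L).ncard ≤ K * (wds b x L).ncard) :
    dimH (orb b y) ≤ dimH (orb b x) := by
  refine ENNReal.le_of_forall_pos_le_add fun ε hε _ => ?_
  set s : ℝ≥0 := (dimH (orb b x)).toNNReal + ε with hs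
  have hs1 : dimH (orb b x) < s := by
    rw [hs, ENNReal.coe_add, ENNReal.coe_toNNReal (dimH_orb_ne_top b x)]
    exact ENNReal.lt_add_right (dimH_orb_ne_top b x) (by exact_mod_cast hε.ne')
  obtain ⟨C, hC, hw⟩ := wds_of_dimH hb x (s := s) (by rw [hs]; positivity) hs1
  have h2 := dimH_le_of_wds hb y (s := s) (C := K * C) fun L => by
    have h3 : ((wds b y L).ncard : ℝ) ≤ K * (wds b x L).ncard := by exact_mod_cast h L
    refine h3.trans ?_
    rw [mul_assoc]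
    gcongr
    exact hw L
  refine h2.trans (le_of_eq ?_)
  rw [hs, ENNReal.coe_add, ENNReal.coe_toNNReal (dimH_orb_ne_top b x)]

/-- comparison with a product of numbers of words -/
theorem dimH_le_add_of_wds {b : ℕ} (hb : 2 ≤ b) {x y z : ℝ} {K : ℕ}
    (h : ∀ L : ℕ, (wds b z L).ncard ≤ K * ((wds b x L).ncard * (wds b y L).ncard)) :
    dimH (orb b z) ≤ dimH (orb b x) + dimH (orb b y) := by
  have hb1 : (1 : ℝ) < b := by exact_mod_cast (by omega : 1 < b)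
  have hb0 : (0 : ℝ) < b := by linarith
  refine ENNReal.le_of_forall_pos_le_add fun ε hε _ => ?_
  have hε2 : 0 < ε / 2 := by positivity
  set s : ℝ≥0 := (dimH (orb b x)).toNNReal + ε / 2 with hs
  set t : ℝ≥0 := (dimH (orb b y)).toNNReal + ε / 2 with ht
  have hs1 : dimH (orb b x) < s := by
    rw [hs, ENNReal.coe_add, ENNReal.coe_toNNReal (dimH_orb_ne_top b x)]
    exact ENNReal.lt_add_right (dimH_orb_ne_top b x) (by exact_mod_cast hε2.ne')
  have ht1 : dimH (orb b y) < t := by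
    rw [ht, ENNReal.coe_add, ENNReal.coe_toNNReal (dimH_orb_ne_top b y)]
    exact ENNReal.lt_add_right (dimH_orb_ne_top b y) (by exact_mod_cast hε2.ne')
  obtain ⟨C, hC, hw⟩ := wds_of_dimH hb x (s := s) (by rw [hs]; positivity) hs1
  obtain ⟨C', hC', hw'⟩ := wds_of_dimH hb y (s := t) (by rw [ht]; positivity) ht1
  have h2 := dimH_le_of_wds hb z (s := s + t) (C := K * (C * C')) fun L => by
    have h3 : ((wds b z L).ncard : ℝ) ≤ K * ((wds b x L).ncard * (wds b y L).ncard) := by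
      exact_mod_cast h L
    refine h3.trans ?_
    rw [NNReal.coe_add, add_mul, Real.rpow_add hb0]
    calc (K : ℝ) * ((wds b x L).ncard * (wds b y L).ncard)
        ≤ K * ((C * (b : ℝ) ^ ((s : ℝ) * L)) * (C' * (b : ℝ) ^ ((t : ℝ) * L))) := by
          gcongr
          · exact hw L
          · exact hw' L
      _ = _ := by ring
  refine h2.trans (le_of_eq ?_)
  rw [ENNReal.coe_add, hs, ht, ENNReal.coe_add, ENNReal.coe_add,
    ENNReal.coe_toNNReal (dimH_orb_ne_top b x), ENNReal.coe_toNNReal (dimH_orb_ne_top b y)]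
  have : (ε : ℝ≥0∞) = ((ε / 2 : ℝ≥0) : ℝ≥0∞) + ((ε / 2 : ℝ≥0) : ℝ≥0∞) := by
    rw [← ENNReal.coe_add, add_halves]
  rw [this]
  ring

/-- cardinalities of images -/
theorem ncard_le_mul {α β γ : Type*} {A : Set α} {B : Set β} {C : Set γ} (hB : B.Finite)
    (hC : C.Finite) (f : β → γ → α) (h : A ⊆ (fun p : β × γ => f p.1 p.2) '' (B ×ˢ C)) :
    A.ncard ≤ B.ncard * C.ncard := by
  calc A.ncard ≤ ((fun p : β × γ => f p.1 p.2) '' (B ×ˢ C)).ncard :=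
        ncard_le_ncard h ((hB.prod hC).image _)
    _ ≤ (B ×ˢ C).ncard := ncard_image_le (hB.prod hC)
    _ = B.ncard * C.ncard := ncard_prod

theorem wds_add {b : ℕ} (hb : 2 ≤ b) (x y : ℝ) (L : ℕ) :
    (wds b (x + y) L).ncard ≤ 4 * ((wds b x L).ncard * (wds b y L).ncard) := by
  have h := ncard_le_mul (A := wds b (x + y) L) (B := ({0, 1} : Set ℤ) ×ˢ ({0, 1} : Set ℤ))
    (C := wds b x L ×ˢ wds b y L) ((Set.toFinite _).prod (Set.toFinite _))
    ((wds_finite hb x L).1.prod (wds_finite hb y L).1)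
    (fun p q => q.1 + q.2 + p.1 - p.2 * (b : ℤ) ^ L) ?_
  · rw [ncard_prod, ncard_prod] at h
    have h2 : ({0, 1} : Set ℤ).ncard = 2 := ncard_pair (by norm_num)
    rw [h2] at h
    exact h
  rintro _ ⟨n, rfl⟩
  set X := (b : ℝ) ^ n * x with hX
  set Y := (b : ℝ) ^ n * y with hY
  have hXY : (b : ℝ) ^ n * (x + y) = X + Y := by rw [hX, hY]; ring
  have hbL : (0 : ℝ) < (b : ℝ) ^ L := by positivity
  -- the carries
  set c : ℤ := ⌊(b : ℝ) ^ L * Int.fract X + (b : ℝ) ^ L * Int.fract Y⌋ -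
    ⌊(b : ℝ) ^ L * Int.fract X⌋ - ⌊(b : ℝ) ^ L * Int.fract Y⌋ with hc
  set e : ℤ := ⌊X + Y⌋ - ⌊X⌋ - ⌊Y⌋ with he
  have hcm : ∀ u v : ℝ, ⌊u + v⌋ - ⌊u⌋ - ⌊v⌋ ∈ ({0, 1} : Set ℤ) := by
    intro u v
    have h1 := Int.le_floor_add u v
    have h2 := Int.le_floor_add_floor u v
    simp only [mem_insert_iff, mem_singleton_iff]
    omega
  refine ⟨((c, e), (⌊(b : ℝ) ^ L * Int.fract X⌋, ⌊(b : ℝ) ^ L * Int.fract Y⌋)),
    ⟨⟨hcm _ _, hcm _ _⟩, ⟨⟨n, rfl⟩, ⟨n, rfl⟩⟩⟩, ?_⟩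
  simp only
  rw [hXY]
  have h1 : (b : ℝ) ^ L * Int.fract (X + Y) =
      ((b : ℝ) ^ L * Int.fract X + (b : ℝ) ^ L * Int.fract Y) - ((e * (b : ℤ) ^ L : ℤ) : ℝ) := by
    rw [Int.fract, Int.fract, Int.fract, he]
    push_cast
    ring
  rw [h1, Int.floor_sub_intCast, hc]
  ring

theorem wds_nat_mul {b : ℕ} (hb : 2 ≤ b) (x : ℝ) {m : ℕ} (hm : 1 ≤ m) (L : ℕ) :
    (wds b (m * x) L).ncard ≤ (m * m) * (wds b x L).ncard := by
  have hIco : (Ico (0 : ℤ) m).ncard = m := by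
    rw [← Finset.coe_Ico, ncard_coe_finset, Int.card_Ico]
    simp
  have h := ncard_le_mul (A := wds b (m * x) L) (B := (Ico (0 : ℤ) m) ×ˢ (Ico (0 : ℤ) m))
    (C := wds b x L) ((finite_Ico _ _).prod (finite_Ico _ _)) (wds_finite hb x L).1
    (fun p q => m * q + p.1 - p.2 * (b : ℤ) ^ L) ?_
  · rw [ncard_prod, hIco] at h
    exact h
  rintro _ ⟨n, rfl⟩
  set X := (b : ℝ) ^ n * x with hX
  have hmX : (b : ℝ) ^ n * (m * x) = m * X := by rw [hX]; ring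
  have hm0 : (0 : ℝ) < m := by exact_mod_cast hm
  have hcm : ∀ u : ℝ, ⌊(m : ℝ) * u⌋ - m * ⌊u⌋ ∈ Ico (0 : ℤ) m := by
    intro u
    have h1 := Int.floor_le u
    have h2 := Int.lt_floor_add_one u
    have h3 := Int.floor_le ((m : ℝ) * u)
    have h4 := Int.lt_floor_add_one ((m : ℝ) * u)
    constructor
    · have : (m : ℤ) * ⌊u⌋ ≤ ⌊(m : ℝ) * u⌋ := by
        rw [Int.le_floor]
        push_cast
        nlinarith
      linarith
    · have h5 : ((⌊(m : ℝ) * u⌋ : ℤ) : ℝ) < (((m : ℤ) * ⌊u⌋ + m : ℤ) : ℝ) := by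
        push_cast
        nlinarith
      have h6 : ⌊(m : ℝ) * u⌋ < (m : ℤ) * ⌊u⌋ + m := by exact_mod_cast h5
      linarith
  set c : ℤ := ⌊(m : ℝ) * ((b : ℝ) ^ L * Int.fract X)⌋ - m * ⌊(b : ℝ) ^ L * Int.fract X⌋ with hc
  set e : ℤ := ⌊(m : ℝ) * X⌋ - m * ⌊X⌋ with he
  refine ⟨((c, e), ⌊(b : ℝ) ^ L * Int.fract X⌋), ⟨⟨hcm _, hcm _⟩, ⟨n, rfl⟩⟩, ?_⟩
  simp only
  rw [hmX]
  have h1 : (b : ℝ) ^ L * Int.fract (m * X) =
      (m : ℝ) * ((b : ℝ) ^ L * Int.fract X) - ((e * (b : ℤ) ^ L : ℤ) : ℝ) := by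
    rw [Int.fract, Int.fract, he]
    push_cast
    ring
  rw [h1, Int.floor_sub_intCast, hc]
  ring

theorem wds_of_nat_mul {b : ℕ} (hb : 2 ≤ b) (x : ℝ) {m : ℕ} (hm : 1 ≤ m) (L : ℕ) :
    (wds b x L).ncard ≤ m * (wds b (m * x) L).ncard := by
  have hIco : (Ico (0 : ℤ) m).ncard = m := by
    rw [← Finset.coe_Ico, ncard_coe_finset, Int.card_Ico]
    simp
  have h := ncard_le_mul (A := wds b x L) (B := Ico (0 : ℤ) m)
    (C := wds b (m * x) L) (finite_Ico _ _) (wds_finite hb _ L).1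
    (fun p q => ((b : ℤ) ^ L * p + q) / m) ?_
  · rw [hIco] at h
    exact h
  rintro _ ⟨n, rfl⟩
  set X := (b : ℝ) ^ n * x with hX
  have hmX : (b : ℝ) ^ n * (m * x) = m * X := by rw [hX]; ring
  have hm0 : (0 : ℝ) < m := by exact_mod_cast hm
  have hmZ : (0 : ℤ) < m := by exact_mod_cast hm
  refine ⟨(⌊(m : ℝ) * Int.fract X⌋, ⌊(b : ℝ) ^ L * Int.fract ((m : ℝ) * X)⌋),
    ⟨⟨?_, ?_⟩, ⟨n, by simp only [hmX]⟩⟩, ?_⟩
  · exact Int.floor_nonneg.2 (mul_nonneg hm0.le (Int.fract_nonneg _))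
  · rw [Int.floor_lt]
    have := Int.fract_lt_one X
    push_cast
    nlinarith
  · simp only
    have h1 : Int.fract ((m : ℝ) * X) = m * Int.fract X - ⌊(m : ℝ) * Int.fract X⌋ := by
      have h2 : (m : ℝ) * X = m * Int.fract X + ((m * ⌊X⌋ : ℤ) : ℝ) := by
        rw [Int.fract]
        push_cast
        ring
      rw [h2, Int.fract_add_intCast, Int.fract]
    -- `⌊b^L {X}⌋ = ⌊(b^L p + b^L {mX}) / m⌋`
    have h3 : (b : ℝ) ^ L * Int.fract X =
        ((((b : ℤ) ^ L * ⌊(m : ℝ) * Int.fract X⌋ : ℤ) : ℝ) + (b : ℝ) ^ L * Int.fract ((m : ℝ) * X)) /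
          (m : ℝ) := by
      rw [h1]
      push_cast
      field_simp
      ring
    rw [h3]
    have h4 := Int.floor_div_natCast ((((b : ℤ) ^ L * ⌊(m : ℝ) * Int.fract X⌋ : ℤ) : ℝ) +
      (b : ℝ) ^ L * Int.fract ((m : ℝ) * X)) m
    rw [h4, Int.floor_intCast_add]

theorem wds_neg {b : ℕ} (hb : 2 ≤ b) (x : ℝ) (L : ℕ) :
    (wds b (-x) L).ncard ≤ 4 * (wds b x L).ncard := by
  have h := ncard_le_mul (A := wds b (-x) L) (B := ({0, 1} : Set ℤ) ×ˢ ({0, 1} : Set ℤ))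
    (C := wds b x L) ((Set.toFinite _).prod (Set.toFinite _))
    (wds_finite hb x L).1
    (fun p q => -q - p.1 + p.2 * (b : ℤ) ^ L) ?_
  · rw [ncard_prod] at h
    have h2 : ({0, 1} : Set ℤ).ncard = 2 := ncard_pair (by norm_num)
    rw [h2] at h
    exact h
  rintro _ ⟨n, rfl⟩
  set X := (b : ℝ) ^ n * x with hX
  have hXY : (b : ℝ) ^ n * (-x) = -X := by rw [hX]; ring
  have hcm : ∀ u : ℝ, -⌊-u⌋ - ⌊u⌋ ∈ ({0, 1} : Set ℤ) := by
    intro u
    have h1 := Int.ceil_le_floor_add_one u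
    have h2 := Int.floor_le_ceil u
    rw [← Int.ceil_neg, neg_neg]
    simp only [mem_insert_iff, mem_singleton_iff]
    omega
  set c : ℤ := -⌊-((b : ℝ) ^ L * Int.fract X)⌋ - ⌊(b : ℝ) ^ L * Int.fract X⌋ with hc
  set e : ℤ := -⌊-X⌋ - ⌊X⌋ with he
  refine ⟨((c, e), ⌊(b : ℝ) ^ L * Int.fract X⌋), ⟨⟨hcm _, hcm _⟩, ⟨n, rfl⟩⟩, ?_⟩
  simp only
  rw [hXY]
  have h1 : (b : ℝ) ^ L * Int.fract (-X) =
      -((b : ℝ) ^ L * Int.fract X) + ((e * (b : ℤ) ^ L : ℤ) : ℝ) := by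
    rw [Int.fract, Int.fract, he]
    push_cast
    ring
  rw [h1, Int.floor_add_intCast, hc]
  ring

end Pool.Agent.U106.OC
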